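import Pool.Agent.FLX.Stmts
import Pool.Agent.FLX.Kit

/-!
# Squad FLX, row SYM: symmetry of the Green operator
-/

set_option autoImplicit false

open scoped InnerProductSpace Topology ContDiff Manifold
open MeasureTheory Filter Set

noncomputable section

namespace Pool.Agent.FLX.H55

open Pool.Agent.Helper42_Paneitz Pool.Agent.Helper82_Vir

theorem exists_act (x x' : S4) : ∃ R : E5 ≃ₗᵢ[ℝ] E5, act R x = x' := by
  refine ⟨(ℝ ∙ ((x : E5) - (x' : E5)))ᗮ.reflection, ?_⟩
  apply Subtype.ext
  rw [act_coe]
  exact Submodule.reflection_sub (by rw [S4_norm, S4_norm])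

/-- rotation invariance of the integral of a zonal function -/
theorem zonal_const (φ : ℝ → ℝ) (hφ : Measurable φ) (x x' : S4) :
    ∫ y : S4, φ ⟪(x' : E5), (y : E5)⟫_ℝ ∂sig = ∫ y : S4, φ ⟪(x : E5), (y : E5)⟫_ℝ ∂sig := by
  obtain ⟨R, hR⟩ := exists_act x x'
  have h := (measurePreserving_act R).map_eq
  have hm : Measurable fun y : S4 => φ ⟪(x' : E5), (y : E5)⟫_ℝ :=
    hφ.comp (continuous_const.inner continuous_subtype_val).measurable
  have h1 : ∫ y : S4, φ ⟪(x' : E5), (y : E5)⟫_ℝ ∂(Measure.map (act R) sig) =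
      ∫ y : S4, φ ⟪(x' : E5), (act R y : E5)⟫_ℝ ∂sig :=
    integral_map (continuous_act R).aemeasurable hm.aestronglyMeasurable
  rw [h] at h1
  rw [h1]
  refine integral_congr_ae (Eventually.of_forall fun y => ?_)
  show φ ⟪(x' : E5), (act R y : E5)⟫_ℝ = φ ⟪(x : E5), (y : E5)⟫_ℝ
  rw [← hR, act_coe, act_coe, R.inner_map_map]

theorem ell_symm (x y : S4) : ell x y = ell y x := by
  unfold ell
  rw [real_inner_comm]

theorem ell_const : ∃ c : ℝ, ∀ x, ∫ y, ell x y ∂sig = c := by
  obtain ⟨x0⟩ : Nonempty S4 := ⟨⟨EuclideanSpace.basisFun (Fin 5) ℝ 0, by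
    rw [mem_sphere_zero_iff_norm]; exact norm_ee 0⟩⟩
  refine ⟨∫ y, ell x0 y ∂sig, fun x => ?_⟩
  exact zonal_const (fun t => - Real.log (1 - t))
    (Real.measurable_log.comp (measurable_const.sub measurable_id)).neg x0 x

theorem abs_ell_const : ∃ c : ℝ, ∀ x, ∫ y, ‖ell x y‖ ∂sig = c := by
  obtain ⟨x0⟩ : Nonempty S4 := ⟨⟨EuclideanSpace.basisFun (Fin 5) ℝ 0, by
    rw [mem_sphere_zero_iff_norm]; exact norm_ee 0⟩⟩
  refine ⟨∫ y, ‖ell x0 y‖ ∂sig, fun x => ?_⟩
  exact zonal_const (fun t => ‖- Real.log (1 - t)‖)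
    (Real.measurable_log.comp (measurable_const.sub measurable_id)).neg.norm x0 x

theorem measurable_ell : Measurable fun z : S4 × S4 => ell z.1 z.2 :=
  (Real.measurable_log.comp (measurable_const.sub continuous_inner_S4.measurable)).neg

theorem integrable_ell_prod (h : ∀ x, Integrable (ell x) sig) :
    Integrable (fun z : S4 × S4 => ell z.1 z.2) (sig.prod sig) := by
  rw [integrable_prod_iff measurable_ell.aestronglyMeasurable]
  refine ⟨Eventually.of_forall fun x => h x, ?_⟩
  obtain ⟨c, hc⟩ := abs_ell_const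
  have e : (fun x : S4 => ∫ y, ‖ell x y‖ ∂sig) = fun _ => c := by
    funext x; exact hc x
  show Integrable (fun x : S4 => ∫ y, ‖ell x y‖ ∂sig) sig
  rw [e]
  exact integrable_const c

theorem integrable_triple (h : ∀ x, Integrable (ell x) sig) {f g : S4 → ℝ} (hf : Continuous f)
    (hg : Continuous g) :
    Integrable (fun z : S4 × S4 => ell z.1 z.2 * (f z.2 * g z.1)) (sig.prod sig) := by
  obtain ⟨C, hC0, hC⟩ := exists_bound hf
  obtain ⟨D, hD0, hD⟩ := exists_bound hg
  have hc : Continuous fun z : S4 × S4 => f z.2 * g z.1 :=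
    (hf.comp continuous_snd).mul (hg.comp continuous_fst)
  refine (integrable_ell_prod h).mul_bdd (c := C * D) hc.aestronglyMeasurable
    (Eventually.of_forall fun z => ?_)
  rw [Real.norm_eq_abs, abs_mul]
  exact mul_le_mul (hC _) (hD _) (abs_nonneg _) hC0

/-- the bilinear form of the kernel is symmetric -/
theorem bil_symm (h : ∀ x, Integrable (ell x) sig) {f g : S4 → ℝ} (hf : Continuous f)
    (hg : Continuous g) :
    ∫ x, (∫ y, ell x y * f y ∂sig) * g x ∂sig = ∫ x, (∫ y, ell x y * g y ∂sig) * f x ∂sig := by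
  have hsw := integral_integral_swap (f := fun x y : S4 => ell x y * (f y * g x))
    (integrable_triple h hf hg)
  have e1 : ∀ x, (∫ y, ell x y * f y ∂sig) * g x = ∫ y, ell x y * (f y * g x) ∂sig := by
    intro x
    rw [← integral_mul_const]
    exact integral_congr_ae (Eventually.of_forall fun y => by ring)
  have e2 : ∀ y, (∫ x, ell y x * g x ∂sig) * f y = ∫ x, ell x y * (f y * g x) ∂sig := by
    intro y
    rw [← integral_mul_const]
    exact integral_congr_ae (Eventually.of_forall fun x => by
      show ell y x * g x * f y = ell x y * (f y * g x)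
      rw [ell_symm y x]; ring)
  simp only [e1, e2]
  exact hsw

/-- SYM -/
theorem sym (ker : KerStmt) (rea : ReaStmt) : SymStmt := by
  have hi := ker.1
  obtain ⟨c, hc⟩ := ell_const
  have hm := msig_pos
  have hT : ∀ f : S4 → ℝ, Continuous f → ∀ x,
      ∫ y, ell x y * f y ∂sig = 6 * msig * K f x + avg f * c := by
    intro f hf x
    have i1 := integrable_ell_mul (hi x) hf
    have i2 : Integrable (fun y => avg f * ell x y) sig := (hi x).const_mul _
    have e : (fun y => ell x y * (f y - avg f)) = fun y => ell x y * f y - avg f * ell x y := by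
      funext y; ring
    unfold K
    rw [e, integral_sub i1 i2, integral_const_mul, hc]
    field_simp
    ring
  have key : ∀ f g : S4 → ℝ, Continuous f → Continuous g →
      ∫ x, K f x * g x ∂sig =
        (∫ x, (∫ y, ell x y * f y ∂sig) * g x ∂sig - c * (∫ y, f y ∂sig) * (∫ y, g y ∂sig) / msig) /
          (6 * msig) := by
    intro f g hf hg
    have hKf : Continuous (K f) := continuous_of_cks (rea f hf)
    have e : ∀ x, (∫ y, ell x y * f y ∂sig) * g x =
        (6 * msig) * (K f x * g x) + (avg f * c) * g x := by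
      intro x; rw [hT f hf x]; ring
    simp only [e]
    have i1 : Integrable (fun x => (6 * msig) * (K f x * g x)) sig :=
      (integrable_cont (hKf.fun_mul hg)).const_mul _
    have i2 : Integrable (fun x => (avg f * c) * g x) sig := (integrable_cont hg).const_mul _
    rw [integral_add i1 i2, integral_const_mul, integral_const_mul]
    unfold avg
    field_simp
    ring
  intro f g hf hg
  constructor
  · have e : ∫ y, f y * K g y ∂sig = ∫ y, K g y * f y ∂sig :=
      integral_congr_ae (Eventually.of_forall fun y => mul_comm _ _)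
    rw [e, key f g hf hg, key g f hg hf, bil_symm hi hf hg]
    ring
  · have h1 := key f (fun _ => 1) hf continuous_const
    have h2 := bil_symm hi hf (continuous_const (y := (1 : ℝ)))
    rw [h2] at h1
    simp only [mul_one] at h1
    simp only [hc] at h1
    rw [integral_const_mul, integral_const_sig] at h1
    rw [h1]
    field_simp
    ring

end Pool.Agent.FLX.H55
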