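import Pool.Agent.FLX.Stmts
import Pool.Agent.FLX.Kit
import Pool.Agent.Helper82_Vir.Crit

/-!
# Squad FLX, row XIS: the first spherical harmonics
-/

set_option autoImplicit false

open scoped InnerProductSpace Topology ContDiff Manifold
open MeasureTheory Filter Set

noncomputable section

namespace Pool.Agent.FLX.H55

open Pool.Agent.Helper42_Paneitz Pool.Agent.Helper82_Vir

theorem integral_inner_eq_zero (v : E5) : ∫ y : S4, ⟪v, (y : E5)⟫_ℝ ∂sig = 0 := by
  have h := integral_dv (smV_const v)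
  simp only [dv_const, integral_zero] at h
  have h2 : ∫ y : S4, ⟪(y : E5), v⟫_ℝ ∂sig = 0 := by linarith
  rw [← h2]
  exact integral_congr_ae (Eventually.of_forall fun y => (real_inner_comm _ _))

theorem integral_inner_mul_inner (v w : E5) :
    ∫ y : S4, ⟪v, (y : E5)⟫_ℝ * ⟪w, (y : E5)⟫_ℝ ∂sig = msig / 5 * ⟪v, w⟫_ℝ := by
  have hc : Continuous fun y : S4 => ⟪v, (y : E5)⟫_ℝ * ⟪w, (y : E5)⟫_ℝ :=
    (continuous_const.inner continuous_subtype_val).mul
      (continuous_const.inner continuous_subtype_val)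
  have h := integral_dv (smV_smul (sm_inner v) (smV_const w))
  have h1 : ∀ y : S4, dv (fun x : S4 => ⟪v, (x : E5)⟫_ℝ • w) y =
      ⟪v, w⟫_ℝ - ⟪v, (y : E5)⟫_ℝ * ⟪w, (y : E5)⟫_ℝ := by
    intro y
    rw [dv_smul (sm_inner v) (smV_const w), dv_const, dd_inner, real_inner_comm w (y : E5)]
    ring
  have h2 : ∀ y : S4, ⟪(y : E5), ⟪v, (y : E5)⟫_ℝ • w⟫_ℝ =
      ⟪v, (y : E5)⟫_ℝ * ⟪w, (y : E5)⟫_ℝ := by
    intro y
    rw [inner_smul_right, real_inner_comm w (y : E5)]
  simp only [h1, h2] at h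
  rw [integral_sub (integrable_const _) (integrable_cont hc), integral_const_sig] at h
  linarith

theorem paneitz_inner (v : E5) (x : S4) :
    paneitz (fun y : S4 => ⟪v, (y : E5)⟫_ℝ) x = 24 * ⟪v, (x : E5)⟫_ℝ := by
  have hz := (sphLaplacian_zonal v univ isOpen_univ (fun x => mem_univ _) (fun t => t)
    (fun _ => 1) (fun _ => 0) contDiffOn_id (fun y _ => hasDerivAt_id y)
    (fun y _ => hasDerivAt_const y 1)).2
  have h1 : sphLaplacian (fun y : S4 => ⟪v, (y : E5)⟫_ℝ) =
      fun y : S4 => (-4) * ⟪v, (y : E5)⟫_ℝ := by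
    rw [hz]
    funext y
    ring
  unfold paneitz
  rw [h1]
  show sphLaplacian (fun y : S4 => (-4) * ⟪v, (y : E5)⟫_ℝ) x - _ = _
  rw [sphLaplacian_smul (-4) (sm_inner v) x, h1]
  ring

/-- XIS -/
theorem xis (sym : SymStmt) (rep : RepStmt) : XisStmt := by
  refine ⟨fun f hf v => ?_, integral_inner_mul_inner, integral_inner_eq_zero⟩
  have hv : Continuous fun y : S4 => ⟪v, (y : E5)⟫_ℝ :=
    continuous_const.inner continuous_subtype_val
  have hK : ∀ x : S4, K (fun y : S4 => ⟪v, (y : E5)⟫_ℝ) x = ⟪v, (x : E5)⟫_ℝ / 24 := by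
    intro x
    have h := rep _ (sm_inner v) x
    have h1 : paneitz (fun y : S4 => ⟪v, (y : E5)⟫_ℝ) = fun y : S4 => 24 * ⟪v, (y : E5)⟫_ℝ := by
      funext y; exact paneitz_inner v y
    have h2 : avg (fun y : S4 => ⟪v, (y : E5)⟫_ℝ) = 0 := by
      unfold avg
      rw [integral_inner_eq_zero, zero_div]
    rw [h1, K_const_mul, h2] at h
    linarith
  rw [(sym f _ hf hv).1]
  simp only [hK]
  rw [← integral_div]
  exact integral_congr_ae (Eventually.of_forall fun y => by ring)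

end Pool.Agent.FLX.H55
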