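import Pool.Agent.FLX.Stmts

/-!
# Row MOM: change of variables for the Moebius maps of the sphere
-/

set_option autoImplicit false

open scoped InnerProductSpace Topology ContDiff Manifold
open MeasureTheory Filter Set

noncomputable section

namespace Pool.Agent.FLX.H55

open Pool.Agent.Helper42_Paneitz Pool.Agent.Helper82_Vir Pool.Agent.FLX

theorem bub_eq {r : ℝ} (h0 : 0 < r) (x y : S4) : bub r x y = bubv (r • (x : E5)) y := by
  unfold bub bubv
  rw [norm_smul, S4_norm, mul_one, Real.norm_of_nonneg h0.le, real_inner_smul_left]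

theorem bub_symm (r : ℝ) (x y : S4) : bub r x y = bub r y x := by
  unfold bub
  rw [real_inner_comm]

theorem integral_bubv {a : E5} (ha : ‖a‖ < 1) : ∫ y, bubv a y ∂sig = msig := by
  rcases eq_or_ne a 0 with rfl | h
  · have : ∀ y : S4, bubv 0 y = 1 := by intro y; simp [bubv]
    simp only [this]
    rw [integral_const_sig, mul_one]
  · have hn : 0 < ‖a‖ := norm_pos_iff.2 h
    have hm : ‖‖a‖⁻¹ • a‖ = 1 := by
      rw [norm_smul, norm_inv, norm_norm, inv_mul_cancel₀ hn.ne']
    have e : ∀ y, bubv a y = bub ‖a‖ ⟨‖a‖⁻¹ • a, mem_sphere_zero_iff_norm.2 hm⟩ y := by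
      intro y
      rw [bub_eq hn]
      congr 1
      show a = ‖a‖ • ‖a‖⁻¹ • a
      rw [smul_smul, mul_inv_cancel₀ hn.ne', one_smul]
    simp only [e]
    exact integral_bub hn ha _

theorem tendsto_fr {f : S4 → ℝ} (hf : Continuous f) (z : S4) :
    Tendsto (fun r => (∫ x, bub r x z * f x ∂sig) / msig) (𝓝[<] 1) (𝓝 (f z)) := by
  have h := (tendsto_bub z hf).div_const msig
  rw [mul_div_cancel_left₀ _ msig_pos.ne'] at h
  refine h.congr fun r => ?_
  congr 1
  exact integral_congr_ae (Eventually.of_forall fun x => by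
    show bub r z x * f x = bub r x z * f x
    rw [bub_symm])

theorem abs_fr_le {f : S4 → ℝ} {C : ℝ} (hC : ∀ x, |f x| ≤ C) {r : ℝ}
    (h0 : 0 < r) (h1 : r < 1) (z : S4) : |(∫ x, bub r x z * f x ∂sig) / msig| ≤ C := by
  have hm := msig_pos
  rw [abs_div, abs_of_pos hm, div_le_iff₀ hm]
  have hb : Continuous fun x => bub r x z := by
    have := continuous_bub_right h0 h1 z
    simpa only [bub_symm r z] using this
  have h2 : ‖∫ x, bub r x z * f x ∂sig‖ ≤ ∫ x, bub r x z * C ∂sig := by
    refine norm_integral_le_of_norm_le (integrable_cont (hb.fun_mul continuous_const))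
      (Eventually.of_forall fun x => ?_)
    rw [norm_mul, Real.norm_of_nonneg (bub_nonneg r x z), Real.norm_eq_abs]
    exact mul_le_mul_of_nonneg_left (hC x) (bub_nonneg r x z)
  rw [integral_mul_const] at h2
  have h3 : ∫ x, bub r x z ∂sig = msig := by
    simp only [bub_symm r _ z]
    exact integral_bub h0 h1 z
  rw [h3] at h2
  rw [Real.norm_eq_abs] at h2
  linarith

theorem continuous_bub_uv {r : ℝ} (h0 : 0 < r) (h1 : r < 1) {u v : S4 × S4 → S4}
    (hu : Continuous u) (hv : Continuous v) : Continuous fun p => bub r (u p) (v p) := by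
  have h2 := (continuous_bub h0 h1).comp (hu.prodMk hv)
  exact h2

theorem continuous_kk {r : ℝ} (h0 : 0 < r) (h1 : r < 1) {m : S4 → S4} (hm : Continuous m)
    {f : S4 → ℝ} (hf : Continuous f) :
    Continuous fun p : S4 × S4 => bub r p.2 (m p.1) * f p.2 := by
  have h2 : Continuous fun p : S4 × S4 => m p.1 := hm.comp continuous_fst
  have h3 : Continuous fun p : S4 × S4 => f p.2 := hf.comp continuous_snd
  have h4 := continuous_bub_uv h0 h1 continuous_snd h2
  exact h4.fun_mul h3

theorem continuous_kkj {r : ℝ} (h0 : 0 < r) (h1 : r < 1) {m : S4 → S4} (hm : Continuous m)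
    {f j : S4 → ℝ} (hf : Continuous f) (hj : Continuous j) :
    Continuous fun p : S4 × S4 => bub r p.2 (m p.1) * f p.2 * j p.1 := by
  have h2 : Continuous fun p : S4 × S4 => j p.1 := hj.comp continuous_fst
  exact (continuous_kk h0 h1 hm hf).fun_mul h2

attribute [local irreducible] mob

section

variable (hA : MoaStmt) (hS : MosStmt) {b : E5} (hb : ‖b‖ < 1)
include hA hb

theorem jac_pos (y : S4) : 0 < Jac b y := by
  unfold Jac
  have h1 := (hA b hb).1 y
  have h2 : 0 < 1 - ‖b‖ ^ 2 := by nlinarith [norm_nonneg b]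
  positivity

theorem continuous_jac : Continuous fun y : S4 => Jac b y := by
  unfold Jac
  refine Continuous.div continuous_const ?_ fun y => pow_ne_zero _ ((hA b hb).1 y).ne'
  exact (continuous_const.add (continuous_const.inner continuous_subtype_val)).pow 4

omit hA in
include hS in
theorem continuous_mob : Continuous (mob b) := by
  have h := hS.1
  rw [← continuousOn_univ]
  have h2 : ContinuousOn (fun x : S4 => ((b, x) : E5 × S4)) univ :=
    (continuous_const.prodMk continuous_id).continuousOn
  have h3 : MapsTo (fun x : S4 => ((b, x) : E5 × S4)) univ {z : E5 × S4 | ‖z.1‖ < 1} := by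
    intro x _
    simpa using hb
  have h4 := h.comp h2 h3
  exact h4

theorem fubini_step {f : S4 → ℝ} (hS : MosStmt) (hf : Continuous f) {r : ℝ} (h0 : 0 < r)
    (h1 : r < 1) :
    ∫ y, (∫ x, bub r x (mob b y) * f x ∂sig) / msig * Jac b y ∂sig = ∫ x, f x ∂sig := by
  have hm := msig_pos
  have hc := continuous_mob hS hb
  have hj := continuous_jac hA hb
  have hk : Continuous fun p : S4 × S4 => bub r p.2 (mob b p.1) * f p.2 * Jac b p.1 :=
    continuous_kkj h0 h1 hc hf hj
  have e2 : ∀ y, (∫ x, bub r x (mob b y) * f x ∂sig) / msig * Jac b y =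
      (∫ x, bub r x (mob b y) * f x * Jac b y ∂sig) / msig := by
    intro y
    rw [integral_mul_const]
    ring
  simp only [e2]
  rw [integral_div, integral_integral_swap (f := fun y x => bub r x (mob b y) * f x * Jac b y)
    (integrable2 hk)]
  have e3 : ∀ x, ∫ y, bub r x (mob b y) * f x * Jac b y ∂sig = f x * msig := by
    intro x
    have e4 : ∀ y, bub r x (mob b y) * f x * Jac b y =
        f x * (bubv (r • (x : E5)) (mob b y) * Jac b y) := by
      intro y
      rw [bub_eq h0]
      ring
    simp only [e4]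
    rw [integral_const_mul]
    obtain ⟨a', ha', h⟩ := (hA b hb).2.2.2.2.2 _ (norm_smul_lt h0 h1 x)
    simp only [h]
    rw [integral_bubv ha']
  simp only [e3]
  rw [integral_mul_const]
  field_simp

theorem mom_cont {f : S4 → ℝ} (hS : MosStmt) (hf : Continuous f) :
    ∫ y, f (mob b y) * Jac b y ∂sig = ∫ y, f y ∂sig := by
  obtain ⟨C, hC0, hC⟩ := exists_bound hf
  have hc := continuous_mob hS hb
  have hj := continuous_jac hA hb
  have hev : ∀ᶠ r : ℝ in 𝓝[<] 1, 0 < r ∧ r < 1 := by
    have h1 : ∀ᶠ r : ℝ in 𝓝[<] 1, 0 < r :=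
      (lt_mem_nhds (show (0 : ℝ) < 1 by norm_num)).filter_mono nhdsWithin_le_nhds
    filter_upwards [h1, self_mem_nhdsWithin] with r hr1 hr2
    exact ⟨hr1, hr2⟩
  have ht : Tendsto (fun r => ∫ y, (∫ x, bub r x (mob b y) * f x ∂sig) / msig * Jac b y ∂sig)
      (𝓝[<] 1) (𝓝 (∫ y, f (mob b y) * Jac b y ∂sig)) := by
    refine tendsto_integral_filter_of_dominated_convergence (fun y => C * Jac b y) ?_ ?_ ?_ ?_
    · filter_upwards [hev] with r hr
      have hk : Continuous fun p : S4 × S4 => bub r p.2 (mob b p.1) * f p.2 :=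
        continuous_kk hr.1 hr.2 hc hf
      have h1 := sm_inner_meas (f := fun y x => bub r x (mob b y) * f x) hk
      exact ((h1.measurable.div_const msig).mul hj.measurable).aestronglyMeasurable
    · filter_upwards [hev] with r hr
      refine Eventually.of_forall fun y => ?_
      rw [norm_mul, Real.norm_of_nonneg (jac_pos hA hb y).le, Real.norm_eq_abs]
      exact mul_le_mul_of_nonneg_right (abs_fr_le hC hr.1 hr.2 _) (jac_pos hA hb y).le
    · exact integrable_cont (continuous_const.fun_mul hj)
    · exact Eventually.of_forall fun y => (tendsto_fr hf (mob b y)).mul_const _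
  have h2 : (fun r => ∫ y, (∫ x, bub r x (mob b y) * f x ∂sig) / msig * Jac b y ∂sig) =ᶠ[𝓝[<] 1]
      fun _ => ∫ x, f x ∂sig := by
    filter_upwards [hev] with r hr
    exact fubini_step hA hb hS hf hr.1 hr.2
  exact tendsto_nhds_unique (ht.congr' h2) tendsto_const_nhds

end

theorem mom (hA : MoaStmt) (hS : MosStmt) : MomStmt := by
  intro b hb f
  have hc := continuous_mob hS hb
  have hj := continuous_jac hA hb
  have hb' : ‖-b‖ < 1 := by rwa [norm_neg]
  have hc' := continuous_mob hS hb'
  have l1 : ∀ x, mob (-b) (mob b x) = x := (hA b hb).2.2.2.1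
  have l2 : ∀ x, mob b (mob (-b) x) = x := by
    intro x
    have := (hA (-b) hb').2.2.2.1 x
    rwa [neg_neg] at this
  let φ : S4 ≃ₜ S4 := ⟨⟨mob b, mob (-b), l1, l2⟩, hc, hc'⟩
  have hφ : MeasurableEmbedding (mob b) := φ.measurableEmbedding
  set ν : Measure S4 := sig.withDensity fun y => ENNReal.ofReal (Jac b y) with hν
  have hjm : Measurable fun y : S4 => ENNReal.ofReal (Jac b y) :=
    hj.measurable.ennreal_ofReal
  have hint : ∀ g : S4 → ℝ, ∫ y, g y ∂ν = ∫ y, g y * Jac b y ∂sig := by
    intro g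
    rw [hν, integral_withDensity_eq_integral_toReal_smul hjm
      (Eventually.of_forall fun y => ENNReal.ofReal_lt_top)]
    refine integral_congr_ae (Eventually.of_forall fun y => ?_)
    show (ENNReal.ofReal (Jac b y)).toReal • g y = g y * Jac b y
    rw [ENNReal.toReal_ofReal (jac_pos hA hb y).le, smul_eq_mul, mul_comm]
  have : IsFiniteMeasure ν := by
    refine isFiniteMeasure_withDensity_ofReal ?_
    exact (integrable_cont hj).2
  have hmeas : ν.map (mob b) = sig := by
    refine ext_of_forall_integral_eq_of_IsFiniteMeasure fun g => ?_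
    rw [hφ.integral_map, hint]
    exact mom_cont hA hb hS g.continuous
  calc ∫ y, f (mob b y) * Jac b y ∂sig = ∫ y, f (mob b y) ∂ν := (hint _).symm
    _ = ∫ y, f y ∂(ν.map (mob b)) := (hφ.integral_map _).symm
    _ = ∫ y, f y ∂sig := by rw [hmeas]

end Pool.Agent.FLX.H55
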